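import Pool.Agent.Helper43.UN.GoalsR
import Pool.Agent.Helper31.UW.R6a

/-! Packet UN-R6an (project UN of helper43): number of the old points alive. -/

set_option autoImplicit false

namespace Pool.Agent.Helper73.UN

open Finset
open Pool.Agent.Helper43.Hw (T na va lz Play aa ac sc oo sk U Dd Sd Pn nx bb np)
open Pool.Agent.Helper18.UW (Par4 UPlay uz UPre uo us vk vx vd Vh mu GoalU1)
open Pool.Agent.Helper31.UW (card_mul_le)
open Pool.Agent.Helper43.UN

theorem goalR6an (h1 : GoalU1) : GoalR6an := by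
  intro m ms M Mb μ δ R A E0 βp βm N00 N0 N K b l Lg q v Y ℓ W κ x hs hB y hy hyY
  obtain ⟨hp1, hp2, hp3, hp4, hp5, hp6, hp7, hp8⟩ := hs.par
  -- sizes
  have hb0 : 2 ^ 42 ≤ b := le_trans (Nat.le_mul_of_pos_right _ hp3) hp6
  have hbl1 : 2 ^ 42 ≤ b * l := le_trans hb0 (Nat.le_mul_of_pos_right _ hp1)
  have hblμ : 2 ^ 33 * (b * l) ≤ μ := by
    calc 2 ^ 33 * (b * l) ≤ 2 ^ 33 * (b * l) * (q + 1) ^ 2 :=
          Nat.le_mul_of_pos_right _ (by positivity)
      _ = 2 ^ 33 * b * (q + 1) ^ 2 * l := by ring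
      _ ≤ μ := hp7
  have hδ : 1000000 * δ ≤ μ := by
    have e1 := hs.d1
    have e2 := hs.vb
    generalize 2 ^ q * v = V at e1 e2
    generalize b * l = B at e2 hblμ
    omega
  have hμ1 : 1000000 ≤ μ := by
    generalize b * l = B at hbl1 hblμ
    omega
  have hR1 := hs.sg.pf.R1
  have hRE := hs.sg.pf.RE
  have hE1 := hs.sg.pf.E1
  have hMMb := hs.sg.pf.MMb
  have hμM := hs.sg.μM
  have hm : ∀ c < N, 1 ≤ m c ∧ m c + 2 ≤ R := by
    intro c hc
    rcases Nat.lt_or_ge c N0 with h | h
    · rcases Nat.lt_or_ge c N00 with h' | h'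
      · have := hs.sg.pre0 c h'
        omega
      · have := hs.sg.pre c h' h
        omega
    · have := hs.sg.main c h hc
      omega
  have hYJ := hB.YJ
  obtain ⟨u1, u2, u3, u4, u5, u6, u7, u8, u9⟩ := h1 m R N κ x hm (by omega) hB.play
  have hκN : κ y ≤ N := hB.play.le y (by omega)
  -- the points `c < N0` are dead
  have hdead : ∀ c < N0, ac R κ x c + m c ≤ y := by
    intro c hc
    rcases Nat.lt_or_ge c N00 with h' | h'
    · have h2 : R - E0 - 2 * Mb < R := by omega
      have h3 := (u1 c (R - E0 - 2 * Mb) h2).1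
      have h4 : ¬ κ (R - E0 - 2 * Mb) ≤ c := by
        have := hB.n00
        omega
      have h5 : ¬ R - E0 - 2 * Mb < sc R κ c := fun h => h4 (h3.2 h)
      have h6 := u3 c
      have h7 := (hs.sg.pre0 c h').2
      omega
    · have h2 : R - 60 * M < R := by omega
      have h3 := (u1 c (R - 60 * M) h2).1
      have h4 : ¬ κ (R - 60 * M) ≤ c := by
        have := hB.n0
        omega
      have h5 : ¬ R - 60 * M < sc R κ c := fun h => h4 (h3.2 h)
      have h6 := u3 c
      have h7 := (hs.sg.pre c h' hc).2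
      omega
  set y' : ℕ := y - (μ + 1) / 2 with hy'
  set Al : Finset ℕ := (range (κ y)).filter (fun c => 0 < va (m c) R κ x c y) with hAl
  have hAal : ∀ c ∈ Al, c < κ y ∧ N0 ≤ c ∧ c < N ∧ y < ac R κ x c + m c := by
    intro c hc
    rw [hAl, mem_filter, mem_range] at hc
    have h2 := (u6 y (by omega) c hc.1).2.2.2.1 hc.2
    refine ⟨hc.1, ?_, by omega, h2⟩
    by_contra h3
    have := hdead c (by omega)
    omega
  set A1 : Finset ℕ := Al.filter (fun c => y' < ac R κ x c) with hA1
  set A2 : Finset ℕ := Al.filter (fun c => ¬ y' < ac R κ x c) with hA2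
  have hcard : A1.card + A2.card = Al.card := card_filter_add_card_filter_not _
  -- the loads
  have hL : uz m R N κ x y ≤ A := by
    have hle := hs.sg.pf.le y (by omega)
    rcases Nat.lt_or_ge y Y with h | h
    · rw [hB.ex y h]
      exact hle
    · have : y = Y := by omega
      rw [this] at hle ⊢
      exact hB.exY.trans hle
  have hL' : uz m R N κ x y' ≤ A := by
    rw [hB.ex y' (by omega)]
    exact hs.sg.pf.le y' (by omega)
  -- first part
  have b1 : A1.card * (μ - δ - (μ + 1) / 2) ≤ A := by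
    refine le_trans (card_mul_le (N := N) (f := fun c => va (m c) R κ x c y) ?_ ?_) hL
    · intro c hc
      have := hAal c (mem_filter.1 hc).1
      exact mem_range.2 this.2.2.1
    · intro c hc
      have h2 := hAal c (mem_filter.1 hc).1
      have h3 := (mem_filter.1 hc).2
      have h4 := (u6 y (by omega) c h2.1).2.2.1
      have h5 := hs.main c h2.2.1 h2.2.2.1
      show μ - δ - (μ + 1) / 2 ≤ va (m c) R κ x c y
      omega
  -- second part
  have b2 : (A2.erase (κ y')).card * (y - y' + 1) ≤ A := by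
    refine le_trans (card_mul_le (N := N) (f := fun c => va (m c) R κ x c y') ?_ ?_) hL'
    · intro c hc
      have := hAal c (mem_filter.1 (mem_erase.1 hc).2).1
      exact mem_range.2 this.2.2.1
    · intro c hc
      have h2 := hAal c (mem_filter.1 (mem_erase.1 hc).2).1
      have h3 := (mem_filter.1 (mem_erase.1 hc).2).2
      have h4 : c ≠ κ y' := (mem_erase.1 hc).1
      have h5 := (u1 c y' (by omega)).2
      have h6 : ¬ aa κ x y' ≤ c := fun h => h3 (h5.1 h)
      have h7 : c < κ y' := by
        unfold aa at h6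
        split_ifs at h6 <;> omega
      have h8 := (u6 y' (by omega) c h7).2.2.1
      show y - y' + 1 ≤ va (m c) R κ x c y'
      omega
  have b3 : A2.card ≤ (A2.erase (κ y')).card + 1 := by
    have := pred_card_le_card_erase (s := A2) (a := κ y')
    omega
  -- numbers
  have c1 : A1.card * (49 * μ) ≤ 100 * (A) := by
    have : 49 * μ ≤ 100 * (μ - δ - (μ + 1) / 2) := by omega
    calc A1.card * (49 * μ) ≤ A1.card * (100 * (μ - δ - (μ + 1) / 2)) :=
          Nat.mul_le_mul_left _ this
      _ = 100 * (A1.card * (μ - δ - (μ + 1) / 2)) := by ring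
      _ ≤ _ := Nat.mul_le_mul_left _ b1
  have c2 : (A2.erase (κ y')).card * μ ≤ 2 * (A) := by
    have : μ ≤ 2 * (y - y' + 1) := by omega
    calc (A2.erase (κ y')).card * μ ≤ (A2.erase (κ y')).card * (2 * (y - y' + 1)) :=
          Nat.mul_le_mul_left _ this
      _ = 2 * ((A2.erase (κ y')).card * (y - y' + 1)) := by ring
      _ ≤ 2 * (A) := Nat.mul_le_mul_left _ b2
      _ ≤ _ := by omega
  have c3 : A2.card * μ ≤ 2 * (A) + μ := by
    calc A2.card * μ ≤ ((A2.erase (κ y')).card + 1) * μ := Nat.mul_le_mul_right _ b3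
      _ = (A2.erase (κ y')).card * μ + μ := by ring
      _ ≤ _ := by omega
  have huo : uo m R κ x y = Al.card := rfl
  rw [huo, ← hcard]
  have e1 : A1.card * (49 * μ) = 49 * (A1.card * μ) := by ring
  have e2 : 10 * μ * (A1.card + A2.card) = 10 * (A1.card * μ) + 10 * (A2.card * μ) := by ring
  rw [e1] at c1
  rw [e2]
  generalize A1.card * μ = P at c1
  generalize A2.card * μ = Q at c3
  omega

end Pool.Agent.Helper73.UN
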